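import Pool.Agent.N708.LL.TaskLocTop
import Pool.Agent.N776.LL.TaskGl
import Pool.Agent.N589.LL.Tasks2

/-!
# LL/20: the invariant functional on `Ind(|.|^{1/2}, |.|^{-1/2})` of `GL_2(K_v)` (project LL of
helper589)

A function `φ` with `φ((a, b; 0, d) g) = |a/d| φ(g)` is of the form `φ(g) = |det g| ψ(bottom row of g)`
with `ψ(t s) = |t|^{-2} ψ(s)` on `K_v² ∖ 0`, and `Λ(φ) = ∫_S ψ(s) ds`, where `S` is the unit sphere of
`K_v²` and `ds` a Haar measure of `K_v²`.
-/

set_option autoImplicit false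

open scoped WithZero Polynomial MatrixGroups Topology
open IsDedekindDomain RestrictedProduct MeasureTheory

noncomputable section

namespace N589LL

namespace Haar

variable {v : Place}

/-! ## Topology -/

lemma isOpen_le (m : ℤ) : IsOpen {x : Kv v | val v x ≤ WithZero.exp m} := by
  have := GlTop.isOpen_ball (mem_nhds_zero_Kv v) (-m)
  simpa using this

lemma isClosed_le (m : ℤ) : IsClosed {x : Kv v | val v x ≤ WithZero.exp m} :=
  AddSubgroup.isClosed_of_isOpen (GlTop.ball v (WithZero.exp m)) (isOpen_le m)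

lemma isCompact_one : IsCompact {x : Kv v | val v x ≤ 1} :=
  isCompact_iff_compactSpace.2 (compactSpace_Ov v)

instance : LocallyCompactSpace (Kv v) := by
  refine isCompact_one.locallyCompactSpace_of_mem_nhds_of_addGroup (x := 0) ?_
  exact (GlTop.isOpen_one (mem_nhds_zero_Kv v)).mem_nhds (by simp)

variable (v) in
/-- `V = K_v²`, row vectors. -/
abbrev V : Type := Fin 2 → Kv v

instance : MeasurableSpace (V v) := borel _
instance : BorelSpace (V v) := ⟨rfl⟩

variable (v) in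
/-- A Haar measure of `K_v²`. -/
def μ : Measure (V v) := Measure.addHaar

instance : (μ v).IsAddHaarMeasure := by unfold μ; infer_instance
instance : (μ v).Regular := by unfold μ; infer_instance

/-- The automorphism `s ↦ s h` of `K_v²`. -/
def eV (h : Gv v) : V v ≃ₜ+ V v where
  toFun s := Matrix.vecMul s h.val
  invFun s := Matrix.vecMul s h⁻¹.val
  left_inv s := by
    change Matrix.vecMul (Matrix.vecMul s h.val) h⁻¹.val = s
    rw [Matrix.vecMul_vecMul, h.mul_inv, Matrix.vecMul_one]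
  right_inv s := by
    change Matrix.vecMul (Matrix.vecMul s h⁻¹.val) h.val = s
    rw [Matrix.vecMul_vecMul, h.inv_mul, Matrix.vecMul_one]
  map_add' s t := Matrix.add_vecMul _ _ _
  continuous_toFun := by
    exact Continuous.matrix_vecMul continuous_id continuous_const
  continuous_invFun := by
    exact Continuous.matrix_vecMul continuous_id continuous_const

lemma eV_apply (h : Gv v) (s : V v) : eV h s = Matrix.vecMul s h.val := rfl

/-- The module of `eV h`. -/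
def ch (h : Gv v) : NNReal := addEquivAddHaarChar (eV h)

lemma ch_pos (h : Gv v) : 0 < ch h := addEquivAddHaarChar_pos _

lemma ch_mul (h h' : Gv v) : ch (h * h') = ch h * ch h' := by
  have e : eV (h * h') = (eV h).trans (eV h') := by
    ext s : 1
    simp only [ContinuousAddEquiv.trans_apply, eV_apply, Matrix.vecMul_vecMul, Units.val_mul]
  rw [ch, e, addEquivAddHaarChar_trans]; rfl

lemma integral_eV (h : Gv v) (F : V v → ℂ) :
    ∫ s, F (eV h s) ∂(μ v) = ((ch h : ℝ) : ℂ)⁻¹ * ∫ s, F s ∂(μ v) := by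
  have h1 : ∫ s, F (eV h s) ∂(μ v) = ∫ s, F s ∂((μ v).map (eV h)) :=
    ((eV h).toHomeomorph.measurableEmbedding.integral_map F).symm
  have h2 : ch h • (μ v).map (eV h) = μ v := addEquivAddHaarChar_smul_map (μ v) (eV h)
  have h3 : ∫ s, F s ∂(μ v) = ((ch h : ℝ) : ℂ) * ∫ s, F s ∂((μ v).map (eV h)) := by
    conv_lhs => rw [← h2]
    rw [integral_smul_nnreal_measure]
    rfl
  rw [h1, h3, ← mul_assoc, inv_mul_cancel₀, one_mul]
  exact_mod_cast (ch_pos h).ne'

lemma ch_one : ch (1 : Gv v) = 1 := by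
  have h1 := ch_mul (1 : Gv v) 1
  rw [mul_one] at h1
  exact mul_left_cancel₀ (ch_pos (1 : Gv v)).ne' (by rw [mul_one]; exact h1.symm)

/-! ## The normalised absolute value -/

lemma qv_ne_nat (v : Place) : qv v ≠ 0 := by
  match v with
  | none => exact two_ne_zero
  | some v =>
    have := finite_quot_A v
    exact Nat.card_ne_zero.2 ⟨inferInstance, this⟩

lemma qv_ne (v : Place) : (qv v : ℝ) ≠ 0 := by exact_mod_cast qv_ne_nat v

lemma qv_pos (v : Place) : 0 < (qv v : ℝ) := by exact_mod_cast Nat.pos_of_ne_zero (qv_ne_nat v)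

lemma val_unit_ne (a : (Kv v)ˣ) : val v (a : Kv v) ≠ 0 := (Valuation.ne_zero_iff _).2 a.ne_zero

lemma nrm_mul (a b : (Kv v)ˣ) : nrm v (a * b) = nrm v a * nrm v b := by
  rw [nrm, nrm, nrm, Units.val_mul, map_mul, WithZero.log_mul (val_unit_ne a) (val_unit_ne b),
    zpow_add₀ (qv_ne v)]

lemma nrm_pos (a : (Kv v)ˣ) : 0 < nrm v a := zpow_pos (qv_pos v) _

lemma nrm_of_val_one {a : (Kv v)ˣ} (h : val v (a : Kv v) = 1) : nrm v a = 1 := by
  rw [nrm, h, WithZero.log_one, zpow_zero]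

lemma nrm_one : nrm v 1 = 1 := nrm_of_val_one (by simp)

/-- `|det g|` -/
def dt (g : Gv v) : ℝ := nrm v (Matrix.GeneralLinearGroup.det g)

lemma dt_mul (g h : Gv v) : dt (g * h) = dt g * dt h := by
  rw [dt, map_mul, nrm_mul]; rfl

lemma dt_pos (g : Gv v) : 0 < dt g := nrm_pos _

lemma dt_one : dt (1 : Gv v) = 1 := by rw [dt, map_one, nrm_one]

lemma val_det_le {g : Gv v} (h : ∀ i j, val v (g.val i j) ≤ 1) : val v g.val.det ≤ 1 := by
  rw [Matrix.det_fin_two]
  refine ((val v).map_sub _ _).trans (max_le ?_ ?_) <;> rw [map_mul] <;>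
    exact mul_le_one' (h _ _) (h _ _)

lemma dt_of_mem {k : Gv v} (hk : k ∈ Cv v) : dt k = 1 := by
  refine nrm_of_val_one ?_
  change val v k.val.det = 1
  have h1 := val_det_le hk.1
  have h2 := val_det_le hk.2
  have h3 : k.val.det * k⁻¹.val.det = 1 := by
    rw [← Matrix.det_mul, k.mul_inv, Matrix.det_one]
  have h4 : val v k.val.det * val v k⁻¹.val.det = 1 := by rw [← map_mul, h3, map_one]
  refine le_antisymm h1 ?_
  rw [← h4]
  exact mul_le_of_le_one_right' h2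

/-! ## Functions on `V ∖ 0` -/

lemma exists_gs (s : V v) (hs : s ≠ 0) : ∃ g : Gv v, g.val 1 = s ∧ g.val.det = 1 := by
  by_cases h0 : s 0 = 0
  · have h1 : s 1 ≠ 0 := fun h1 => hs (by ext i; fin_cases i <;> assumption)
    have hd : (!![(s 1)⁻¹, 0; 0, s 1] : Matrix (Fin 2) (Fin 2) (Kv v)).det = 1 := by
      rw [Matrix.det_fin_two_of, inv_mul_cancel₀ h1]; simp
    refine ⟨Matrix.GeneralLinearGroup.mkOfDetNeZero !![(s 1)⁻¹, 0; 0, s 1] (by
      rw [hd]; exact one_ne_zero), ?_, hd⟩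
    ext i; fin_cases i
    · exact h0.symm
    · rfl
  · have hd : (!![0, -(s 0)⁻¹; s 0, s 1] : Matrix (Fin 2) (Fin 2) (Kv v)).det = 1 := by
      rw [Matrix.det_fin_two_of, neg_mul, inv_mul_cancel₀ h0]; simp
    refine ⟨Matrix.GeneralLinearGroup.mkOfDetNeZero !![0, -(s 0)⁻¹; s 0, s 1] (by
      rw [hd]; exact one_ne_zero), ?_, hd⟩
    ext i; fin_cases i <;> rfl

open Classical in
/-- A matrix with determinant one and second row `s`. -/
def gs (s : V v) : Gv v := if h : s ≠ 0 then (exists_gs s h).choose else 1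

lemma gs_row {s : V v} (hs : s ≠ 0) : (gs s).val 1 = s := by
  rw [gs, dif_pos hs]; exact (exists_gs s hs).choose_spec.1

lemma gs_det {s : V v} (hs : s ≠ 0) : (gs s).val.det = 1 := by
  rw [gs, dif_pos hs]; exact (exists_gs s hs).choose_spec.2

lemma gs_Det {s : V v} (hs : s ≠ 0) : Matrix.GeneralLinearGroup.det (gs s) = 1 :=
  Units.ext (gs_det hs)

lemma gs_dt {s : V v} (hs : s ≠ 0) : dt (gs s) = 1 := by rw [dt, gs_Det hs, nrm_one]

lemma row_ne (g : Gv v) : g.val 1 ≠ 0 := by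
  intro h
  have h1 : g.val.det = 0 := Matrix.det_eq_zero_of_row_eq_zero 1 (fun j => congrFun h j)
  have h2 : g.val.det * g⁻¹.val.det = 1 := by
    rw [← Matrix.det_mul, g.mul_inv, Matrix.det_one]
  rw [h1, zero_mul] at h2
  exact zero_ne_one h2

/-- `φ((a, b; 0, d) g) = |a/d| φ(g)` -/
def Eqv (φ : Gv v → ℂ) : Prop := ∀ (a d : (Kv v)ˣ) (b : Kv v) (g : Gv v),
  φ (bor a d b * g) = ((nrm v a / nrm v d : ℝ) : ℂ) * φ g

/-- smooth functions -/
def Smo (φ : Gv v → ℂ) : Prop :=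
  ∃ U : Subgroup (Gv v), IsOpen (U : Set (Gv v)) ∧ ∀ u ∈ U, ∀ g, φ (g * u) = φ g

/-- the function `ψ` with `φ(g) = |det g| ψ(second row of g)` -/
def ps (φ : Gv v → ℂ) (s : V v) : ℂ := φ (gs s)

lemma ps_eq {φ : Gv v → ℂ} (hφ : Eqv φ) (g : Gv v) : φ g = (dt g : ℂ) * ps φ (g.val 1) := by
  have hs : g.val 1 ≠ 0 := row_ne g
  have e : g = bor (Matrix.GeneralLinearGroup.det g) 1 ((g * (gs (g.val 1))⁻¹).val 0 1) *
      gs (g.val 1) := by
    rw [← mul_inv_eq_iff_eq_mul]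
    have hrow : (g * (gs (g.val 1))⁻¹).val 1 = (1 : Matrix (Fin 2) (Fin 2) (Kv v)) 1 := by
      rw [Units.val_mul, Matrix.mul_apply_eq_vecMul]
      conv_lhs => rw [← gs_row hs]
      rw [← Matrix.mul_apply_eq_vecMul, gs_row hs, (gs (g.val 1)).mul_inv]
    have h10 : (g * (gs (g.val 1))⁻¹).val 1 0 = 0 := by rw [hrow]; simp
    have h11 : (g * (gs (g.val 1))⁻¹).val 1 1 = 1 := by rw [hrow]; simp
    have hdet : (g * (gs (g.val 1))⁻¹).val.det = g.val.det := by
      rw [Units.val_mul, Matrix.det_mul]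
      have h2 : (gs (g.val 1)).val.det * (gs (g.val 1))⁻¹.val.det = 1 := by
        rw [← Matrix.det_mul, (gs (g.val 1)).mul_inv, Matrix.det_one]
      rw [gs_det hs, one_mul] at h2
      rw [h2, mul_one]
    rw [Matrix.det_fin_two, h10, h11, mul_zero, sub_zero, mul_one] at hdet
    ext i j
    fin_cases i <;> fin_cases j
    · exact hdet
    · rfl
    · exact h10
    · exact h11
  have h2 := hφ (Matrix.GeneralLinearGroup.det g) 1 ((g * (gs (g.val 1))⁻¹).val 0 1) (gs (g.val 1))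
  rw [← e, nrm_one, div_one] at h2
  exact h2

lemma eV_ne {h : Gv v} {s : V v} (hs : s ≠ 0) : eV h s ≠ 0 := by
  intro h0
  exact hs ((eV h).injective (by rw [h0, map_zero]))

lemma ps_Rt {φ : Gv v → ℂ} (hφ : Eqv φ) (h : Gv v) {s : V v} (hs : s ≠ 0) :
    ps (Rt (Gv v) h φ) s = (dt h : ℂ) * ps φ (eV h s) := by
  have h1 : ps (Rt (Gv v) h φ) s = φ (gs s * h) := rfl
  have h2 : (gs s * h).val 1 = eV h s := by
    rw [Units.val_mul, Matrix.mul_apply_eq_vecMul, gs_row hs]; rfl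
  rw [h1, ps_eq hφ, h2, dt_mul, gs_dt hs, one_mul]

lemma Eqv_Rt {φ : Gv v → ℂ} (hφ : Eqv φ) (h : Gv v) : Eqv (Rt (Gv v) h φ) := by
  intro a d b g
  change φ (bor a d b * g * h) = _ * φ (g * h)
  rw [mul_assoc]
  exact hφ a d b (g * h)

lemma Smo_Rt {φ : Gv v → ℂ} (hφ : Smo φ) (h : Gv v) : Smo (Rt (Gv v) h φ) := by
  obtain ⟨U, hU, hu⟩ := hφ
  refine ⟨U.comap (MulAut.conj h⁻¹).toMonoidHom, ?_, fun u hu' g => ?_⟩
  · rw [Subgroup.coe_comap]
    refine hU.preimage ?_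
    change Continuous fun g : Gv v => h⁻¹ * g * (h⁻¹)⁻¹
    fun_prop
  · change φ (g * u * h) = φ (g * h)
    have h1 : h⁻¹ * u * (h⁻¹)⁻¹ ∈ U := hu'
    have h2 := hu _ h1 (g * h)
    rw [← h2]
    congr 1
    group

/-! ## Regions of `V` -/

/-- coordinate half-spaces -/
def co (v : Place) (i : Fin 2) (m : ℤ) : Set (V v) := {s | val v (s i) ≤ WithZero.exp m}

lemma mem_co {i : Fin 2} {m : ℤ} {s : V v} : s ∈ co v i m ↔ val v (s i) ≤ WithZero.exp m := Iff.rfl

lemma isClopen_co (i : Fin 2) (m : ℤ) : IsClopen (co v i m) := by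
  have hc : Continuous fun s : V v => s i := continuous_apply i
  exact ⟨(isClosed_le m).preimage hc, (isOpen_le m).preimage hc⟩

lemma co_mono (i : Fin 2) {m n : ℤ} (h : m ≤ n) : co v i m ⊆ co v i n := fun _ hs =>
  le_trans (mem_co.1 hs) (WithZero.exp_le_exp.2 h)

/-- the lattice `O²` -/
def Lat (v : Place) : Set (V v) := co v 0 0 ∩ co v 1 0

lemma mem_Lat {s : V v} : s ∈ Lat v ↔ ∀ i, val v (s i) ≤ 1 := by
  rw [Lat, Set.mem_inter_iff, mem_co, mem_co, WithZero.exp_zero, Fin.forall_fin_two]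

lemma isCompact_Lat : IsCompact (Lat v) := by
  have h : Lat v = Set.pi Set.univ fun _ : Fin 2 => {x : Kv v | val v x ≤ 1} := by
    ext s; rw [mem_Lat]; simp
  rw [h]
  exact isCompact_univ_pi fun _ => isCompact_one

lemma isOpen_Lat : IsOpen (Lat v) := ((isClopen_co 0 0).inter (isClopen_co 1 0)).isOpen

lemma μ_Lat_ne : μ v (Lat v) ≠ 0 :=
  (isOpen_Lat.measure_pos (μ v) ⟨0, mem_Lat.2 (by simp)⟩).ne'

lemma μ_Lat_ne_top : μ v (Lat v) ≠ ⊤ := isCompact_Lat.measure_lt_top.ne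

lemma vecMul_le {r : ℤᵐ⁰} {s : V v} (hs : ∀ i, val v (s i) ≤ r) {k : Gv v} (hk : k ∈ Cv v) (i : Fin 2) :
    val v (eV k s i) ≤ r := by
  have e : eV k s i = s 0 * k.val 0 i + s 1 * k.val 1 i := by
    rw [eV_apply, Matrix.vecMul, dotProduct, Fin.sum_univ_two]
  rw [e]
  refine ((val v).map_add _ _).trans (max_le ?_ ?_) <;> rw [map_mul] <;>
    exact (mul_le_of_le_one_right' (hk.1 _ _)).trans (hs _)

lemma eV_inv (h : Gv v) (s : V v) : eV h⁻¹ (eV h s) = s := by
  rw [eV_apply, eV_apply, Matrix.vecMul_vecMul, h.mul_inv, Matrix.vecMul_one]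

lemma vecMul_le_iff {r : ℤᵐ⁰} {s : V v} {k : Gv v} (hk : k ∈ Cv v) :
    (∀ i, val v (eV k s i) ≤ r) ↔ ∀ i, val v (s i) ≤ r := by
  refine ⟨fun h i => ?_, fun h i => vecMul_le h hk i⟩
  have := vecMul_le h (inv_mem hk) i
  rwa [eV_inv] at this

lemma ch_of_mem {k : Gv v} (hk : k ∈ Cv v) : ch k = 1 := by
  have h1 : (eV k) ⁻¹' (Lat v) = Lat v := by
    ext s
    rw [Set.mem_preimage, mem_Lat, mem_Lat]
    exact vecMul_le_iff hk
  have h2 : ch k • μ v ((eV k) ⁻¹' (Lat v)) = μ v (Lat v) :=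
    addEquivAddHaarChar_smul_preimage (μ v) (X := Lat v) (eV k)
  rw [h1, ENNReal.smul_def, smul_eq_mul] at h2
  have h3 : ((ch k : NNReal) : ENNReal) = 1 := by
    rw [← ENNReal.mul_left_inj μ_Lat_ne μ_Lat_ne_top, one_mul]; exact h2
  exact_mod_cast h3

/-! ## Representatives of the residue field -/

lemma exists_RK (v : Place) : ∃ R : Finset K, R.card = qv v ∧ (∀ r ∈ R, pv v r ≤ 1) ∧
    (∀ y : K, pv v y ≤ 1 → ∃ r ∈ R, pv v (y - r) < 1) ∧
    ∀ r ∈ R, ∀ r' ∈ R, pv v (r - r') < 1 → r = r' := by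
  classical
  match v with
  | none =>
    refine ⟨{0, 1}, ?_, ?_, fun y hy => ?_, ?_⟩
    · rw [Finset.card_pair zero_ne_one]; rfl
    · intro r hr
      simp only [Finset.mem_insert, Finset.mem_singleton] at hr
      rcases hr with rfl | rfl <;> simp
    · rcases residue_infty y hy with h | h
      · exact ⟨0, by simp, by simpa using h⟩
      · exact ⟨1, by simp, h⟩
    · intro r hr r' hr' h
      simp only [Finset.mem_insert, Finset.mem_singleton] at hr hr'
      rcases hr with rfl | rfl <;> rcases hr' with rfl | rfl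
      · rfl
      · exfalso; rw [zero_sub, Valuation.map_neg, map_one] at h; exact lt_irrefl _ h
      · exfalso; rw [sub_zero, map_one] at h; exact lt_irrefl _ h
      · rfl
  | some v =>
    have := finite_quot_A v
    have := Fintype.ofFinite (A ⧸ v.asIdeal)
    have hsep : ∀ q q' : A ⧸ v.asIdeal,
        pv (some v) (algebraMap A K q.out - algebraMap A K q'.out) < 1 → q = q' := by
      intro q q' h
      rw [← map_sub] at h
      change v.valuation K _ < 1 at h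
      rw [HeightOneSpectrum.valuation_of_algebraMap, HeightOneSpectrum.intValuation_lt_one_iff_mem,
        ← Ideal.Quotient.eq] at h
      have e : ∀ q : A ⧸ v.asIdeal, Ideal.Quotient.mk v.asIdeal q.out = q := fun q => by simp
      rw [e, e] at h
      exact h
    refine ⟨Finset.univ.image fun q : A ⧸ v.asIdeal => algebraMap A K q.out, ?_, ?_,
      fun y hy => ?_, ?_⟩
    · rw [Finset.card_image_of_injective, Finset.card_univ, ← Nat.card_eq_fintype_card]
      · rfl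
      · intro q q' h
        exact hsep q q' (by simp only at h; rw [h]; simp)
    · intro r hr
      obtain ⟨q, -, rfl⟩ := Finset.mem_image.1 hr
      change v.valuation K _ ≤ 1
      rw [HeightOneSpectrum.valuation_of_algebraMap]
      exact HeightOneSpectrum.intValuation_le_one v _
    · obtain ⟨a, ha⟩ := HeightOneSpectrum.exists_valuation_sub_lt_of_integer v hy 1
      refine ⟨_, Finset.mem_image_of_mem _ (Finset.mem_univ (Ideal.Quotient.mk v.asIdeal a)), ?_⟩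
      have e : y - algebraMap A K (Quotient.out (Ideal.Quotient.mk v.asIdeal a)) =
        (algebraMap A K (a - Quotient.out (Ideal.Quotient.mk v.asIdeal a))) -
          (algebraMap A K a - y) := by
        rw [map_sub]; ring
      rw [e]
      refine lt_of_le_of_lt (Valuation.map_sub _ _ _) (max_lt ?_ (by simpa using! ha))
      change v.valuation K _ < 1
      rw [HeightOneSpectrum.valuation_of_algebraMap, HeightOneSpectrum.intValuation_lt_one_iff_mem]
      rw [← Ideal.Quotient.eq]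
      simp
    · intro r hr r' hr' h
      obtain ⟨q, -, rfl⟩ := Finset.mem_image.1 hr
      obtain ⟨q', -, rfl⟩ := Finset.mem_image.1 hr'
      rw [hsep q q' h]

lemma exists_R (v : Place) : ∃ R : Finset (Kv v), R.card = qv v ∧ (∀ r ∈ R, val v r ≤ 1) ∧
    (∀ x, val v x ≤ 1 → ∃ r ∈ R, val v (x - r) ≤ WithZero.exp (-1)) ∧
    ∀ r ∈ R, ∀ r' ∈ R, val v (r - r') ≤ WithZero.exp (-1) → r = r' := by
  classical
  obtain ⟨R, hc, h1, h2, h3⟩ := exists_RK v
  refine ⟨R.image (incl v), ?_, ?_, fun x hx => ?_, ?_⟩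
  · rw [Finset.card_image_of_injective _ (incl v).injective, hc]
  · intro r hr
    obtain ⟨y, hy, rfl⟩ := Finset.mem_image.1 hr
    rw [val_incl]; exact h1 y hy
  · obtain ⟨y, hy⟩ := dense_Kv v x 1
    obtain ⟨r, hr, hyr⟩ := h2 y (by
      rw [← val_incl]
      have e : incl v y = x - (x - incl v y) := by ring
      rw [e]
      refine (Valuation.map_sub _ _ _).trans (max_le hx (hy.trans ?_))
      rw [← WithZero.exp_zero, WithZero.exp_le_exp]; norm_num)
    refine ⟨_, Finset.mem_image_of_mem _ hr, ?_⟩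
    have e : x - incl v r = (x - incl v y) + incl v (y - r) := by rw [map_sub]; ring
    rw [e]
    refine (Valuation.map_add _ _ _).trans (max_le hy ?_)
    rw [val_incl, ← lt_one_iff_le_exp]; exact hyr
  · intro r hr r' hr' h
    obtain ⟨y, hy, rfl⟩ := Finset.mem_image.1 hr
    obtain ⟨y', hy', rfl⟩ := Finset.mem_image.1 hr'
    rw [← map_sub, val_incl, ← lt_one_iff_le_exp] at h
    rw [h3 y hy y' hy' h]

/-- `πO × O` -/
def Lat1 (v : Place) : Set (V v) := co v 0 (-1) ∩ co v 1 0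

lemma μ_Lat_eq : μ v (Lat v) = (qv v : ENNReal) * μ v (Lat1 v) := by
  classical
  obtain ⟨R, hc, h1, h2, h3⟩ := exists_R v
  have hmeas : MeasurableSet (Lat1 v) :=
    ((isClopen_co 0 (-1)).inter (isClopen_co 1 0)).isOpen.measurableSet
  have e : Lat v = ⋃ r ∈ R, (fun s : V v => s + ![-r, 0]) ⁻¹' (Lat1 v) := by
    ext s
    simp only [Set.mem_iUnion, Set.mem_preimage, Lat, Lat1, Set.mem_inter_iff, mem_co,
      Pi.add_apply, Matrix.cons_val_zero, Matrix.cons_val_one, add_zero, WithZero.exp_zero,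
      ← sub_eq_add_neg]
    constructor
    · rintro ⟨ha, hb⟩
      obtain ⟨r, hr, hx⟩ := h2 (s 0) ha
      exact ⟨r, hr, hx, hb⟩
    · rintro ⟨r, hr, hx, hb⟩
      refine ⟨?_, hb⟩
      have e : s 0 = (s 0 - r) + r := by ring
      rw [e]
      refine (Valuation.map_add _ _ _).trans (max_le (hx.trans ?_) (h1 r hr))
      rw [← WithZero.exp_zero, WithZero.exp_le_exp]; norm_num
  rw [e, measure_biUnion_finset]
  · simp only [measure_preimage_add_right, Finset.sum_const, hc, nsmul_eq_mul]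
  · intro r hr r' hr' hne
    refine Set.disjoint_left.2 fun s hs hs' => hne (h3 r hr r' hr' ?_)
    simp only [Set.mem_preimage, Lat1, Set.mem_inter_iff, mem_co, Pi.add_apply,
      Matrix.cons_val_zero, ← sub_eq_add_neg] at hs hs'
    have e : r - r' = (s 0 - r') - (s 0 - r) := by ring
    rw [e]
    exact (Valuation.map_sub _ _ _).trans (max_le hs'.1 hs.1)
  · intro r hr
    exact hmeas.preimage (measurable_add_const _)

lemma exists_unif (v : Place) : ∃ ϖ : (Kv v)ˣ, val v (ϖ : Kv v) = WithZero.exp (-1) := by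
  obtain ⟨x, hx⟩ := exists_pv_unif v
  have h : val v (incl v x) = WithZero.exp (-1) := by rw [val_incl, hx]
  exact ⟨Units.mk0 (incl v x) (by
    intro h0; rw [h0, map_zero] at h; exact WithZero.exp_ne_zero h.symm), h⟩

lemma co_iff {ϖ : (Kv v)ˣ} (hϖ : val v (ϖ : Kv v) = WithZero.exp (-1)) (x : Kv v) (m : ℤ) :
    val v (x * ϖ) ≤ WithZero.exp (m - 1) ↔ val v x ≤ WithZero.exp m := by
  rw [map_mul, hϖ, sub_eq_add_neg, WithZero.exp_add]
  exact mul_le_mul_iff_left₀ WithZero.exp_pos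

lemma eV_dg (a d : (Kv v)ˣ) (s : V v) : eV (dg a d) s = ![s 0 * a, s 1 * d] := by
  rw [eV_apply]
  ext i
  rw [Matrix.vecMul, dotProduct, Fin.sum_univ_two]
  fin_cases i <;> simp [dg, bor]

lemma ch_dg {ϖ : (Kv v)ˣ} (hϖ : val v (ϖ : Kv v) = WithZero.exp (-1)) :
    (ch (dg ϖ 1 : Gv v) : ℝ) = (qv v : ℝ)⁻¹ := by
  have h1 : (eV (dg ϖ 1 : Gv v)) ⁻¹' (Lat1 v) = Lat v := by
    ext s
    rw [Set.mem_preimage, eV_dg, Lat1, Lat, Set.mem_inter_iff, Set.mem_inter_iff, mem_co, mem_co,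
      mem_co, mem_co]
    simp only [Matrix.cons_val_zero, Matrix.cons_val_one, Units.val_one, mul_one]
    rw [show (-1 : ℤ) = 0 - 1 by norm_num, co_iff hϖ]
  have h2 : ch (dg ϖ 1 : Gv v) • μ v ((eV (dg ϖ 1 : Gv v)) ⁻¹' (Lat1 v)) = μ v (Lat1 v) :=
    addEquivAddHaarChar_smul_preimage (μ v) (X := Lat1 v) (eV (dg ϖ 1 : Gv v))
  rw [h1, ENNReal.smul_def, smul_eq_mul] at h2
  have h3 : ((qv v : ENNReal) * (ch (dg ϖ 1 : Gv v) : NNReal)) * μ v (Lat v) = 1 * μ v (Lat v) := by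
    rw [mul_assoc, h2, ← μ_Lat_eq, one_mul]
  rw [ENNReal.mul_left_inj μ_Lat_ne μ_Lat_ne_top] at h3
  have h4 : (qv v : NNReal) * ch (dg ϖ 1 : Gv v) = 1 := by exact_mod_cast h3
  have h5 : (qv v : ℝ) * (ch (dg ϖ 1 : Gv v) : ℝ) = 1 := by exact_mod_cast h4
  exact eq_inv_of_mul_eq_one_right h5

/-! ## The scaling formula -/

lemma dt_dg (a d : (Kv v)ˣ) : dt (dg a d : Gv v) = nrm v a * nrm v d := by
  rw [dt, ← nrm_mul]
  congr 1
  ext
  change (Matrix.det (dg a d : Gv v).val) = _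
  rw [Matrix.det_fin_two]
  simp [dg, bor]

lemma nrm_unif {ϖ : (Kv v)ˣ} (hϖ : val v (ϖ : Kv v) = WithZero.exp (-1)) :
    nrm v ϖ = (qv v : ℝ)⁻¹ := by
  rw [nrm, hϖ, WithZero.log_exp, zpow_neg_one]

/-- the elements for which the scaling formula holds -/
def Sca (v : Place) : Subgroup (Gv v) where
  carrier := {h | (ch h : ℝ) = dt h}
  mul_mem' := by
    intro a b ha hb
    simp only [Set.mem_ofPred_eq] at ha hb ⊢
    rw [ch_mul, dt_mul, NNReal.coe_mul, ha, hb]
  one_mem' := by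
    simp only [Set.mem_ofPred_eq]
    rw [ch_one, dt_one, NNReal.coe_one]
  inv_mem' := by
    intro a ha
    simp only [Set.mem_ofPred_eq] at ha ⊢
    have h1 : (ch a : ℝ) * (ch a⁻¹ : ℝ) = 1 := by
      rw [← NNReal.coe_mul, ← ch_mul, mul_inv_cancel, ch_one, NNReal.coe_one]
    have h2 : dt a * dt a⁻¹ = 1 := by rw [← dt_mul, mul_inv_cancel, dt_one]
    rw [← ha] at h2
    have h3 : (ch a : ℝ) ≠ 0 := by exact_mod_cast (ch_pos a).ne'
    exact mul_left_cancel₀ h3 (h1.trans h2.symm)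

lemma mem_Sca {h : Gv v} : h ∈ Sca v ↔ (ch h : ℝ) = dt h := Iff.rfl

lemma Cv_le_Sca : Cv v ≤ Sca v := fun k hk => by
  rw [mem_Sca, ch_of_mem hk, dt_of_mem hk, NNReal.coe_one]

lemma dg_mem_Sca {ϖ : (Kv v)ˣ} (hϖ : val v (ϖ : Kv v) = WithZero.exp (-1)) :
    (dg ϖ 1 : Gv v) ∈ Sca v := by
  rw [mem_Sca, ch_dg hϖ, dt_dg, nrm_one, mul_one, nrm_unif hϖ]

lemma wm_mem : (wm : Gv v) ∈ Cv v := by
  constructor <;> intro i j <;> fin_cases i <;> fin_cases j <;> simp [wm]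

lemma wm_dg_wm (a d : (Kv v)ˣ) : (wm : Gv v) * dg a d * wm = dg d a := by
  ext i j
  fin_cases i <;> fin_cases j <;> simp [wm, dg, bor, Matrix.mul_apply, Fin.sum_univ_two]

lemma dg_mul (a d a' d' : (Kv v)ˣ) : (dg a d : Gv v) * dg a' d' = dg (a * a') (d * d') := by
  ext i j
  fin_cases i <;> fin_cases j <;> simp [dg, bor, Matrix.mul_apply, Fin.sum_univ_two]

lemma dg_one : (dg 1 1 : Gv v) = 1 := by
  ext i j
  fin_cases i <;> fin_cases j <;> simp [dg, bor]

lemma dg_inv (a d : (Kv v)ˣ) : (dg a d : Gv v)⁻¹ = dg a⁻¹ d⁻¹ := by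
  rw [inv_eq_iff_mul_eq_one, dg_mul, mul_inv_cancel, mul_inv_cancel, dg_one]

lemma dg'_mem_Sca {ϖ : (Kv v)ˣ} (hϖ : val v (ϖ : Kv v) = WithZero.exp (-1)) :
    (dg 1 ϖ⁻¹ : Gv v) ∈ Sca v := by
  have h1 : (dg 1 ϖ⁻¹ : Gv v) = wm * (dg ϖ 1)⁻¹ * wm := by rw [dg_inv, wm_dg_wm, inv_one]
  rw [h1]
  exact mul_mem (mul_mem (Cv_le_Sca wm_mem) (inv_mem (dg_mem_Sca hϖ))) (Cv_le_Sca wm_mem)

/-- the change of variables formula -/
lemma integral_ps {φ : Gv v → ℂ} (hφ : Eqv φ) {h : Gv v} (hh : h ∈ Sca v) {S₁ S₂ : Set (V v)}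
    (hS : (eV h) ⁻¹' S₂ = S₁) (hm : MeasurableSet S₂) (h0 : (0 : V v) ∉ S₁) :
    ∫ s in S₁, ps (Rt (Gv v) h φ) s ∂(μ v) = ∫ s in S₂, ps φ s ∂(μ v) := by
  have hm1 : MeasurableSet S₁ := by
    rw [← hS]; exact hm.preimage (eV h).toHomeomorph.continuous.measurable
  rw [← integral_indicator hm1, ← integral_indicator hm]
  have e : ∀ s, S₁.indicator (ps (Rt (Gv v) h φ)) s =
      (dt h : ℂ) * (S₂.indicator (ps φ) (eV h s)) := by
    intro s
    by_cases hs : s ∈ S₁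
    · have hs2 : eV h s ∈ S₂ := by rw [← hS] at hs; exact hs
      rw [Set.indicator_of_mem hs, Set.indicator_of_mem hs2, ps_Rt hφ h]
      rintro rfl
      exact h0 hs
    · have hs2 : eV h s ∉ S₂ := by rw [← hS] at hs; exact hs
      rw [Set.indicator_of_notMem hs, Set.indicator_of_notMem hs2, mul_zero]
  simp only [e]
  rw [integral_const_mul, integral_eV h, mem_Sca.1 hh, ← mul_assoc, mul_inv_cancel₀, one_mul]
  exact_mod_cast (dt_pos h).ne'

/-- the unit sphere -/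
def Sph (v : Place) : Set (V v) := Lat v ∩ (co v 0 (-1) ∩ co v 1 (-1))ᶜ

def A1 (v : Place) : Set (V v) := co v 0 0 ∩ (co v 1 0 ∩ (co v 1 (-1))ᶜ)
def A2 (v : Place) : Set (V v) := (co v 0 0 ∩ (co v 0 (-1))ᶜ) ∩ co v 1 (-1)
def D1 (v : Place) : Set (V v) := co v 0 (-1) ∩ (co v 1 0 ∩ (co v 1 (-1))ᶜ)
def D2 (v : Place) : Set (V v) := (co v 0 0 ∩ (co v 0 (-1))ᶜ) ∩ co v 1 0

lemma isClopen_Sph : IsClopen (Sph v) :=
  ((isClopen_co 0 0).inter (isClopen_co 1 0)).inter
    ((isClopen_co 0 (-1)).inter (isClopen_co 1 (-1))).compl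

lemma isCompact_Sph : IsCompact (Sph v) :=
  isCompact_Lat.of_isClosed_subset isClopen_Sph.isClosed Set.inter_subset_left

lemma meas_A1 : MeasurableSet (A1 v) :=
  ((isClopen_co 0 0).inter ((isClopen_co 1 0).inter (isClopen_co 1 (-1)).compl)).isOpen.measurableSet
lemma meas_A2 : MeasurableSet (A2 v) :=
  (((isClopen_co 0 0).inter (isClopen_co 0 (-1)).compl).inter (isClopen_co 1 (-1))).isOpen.measurableSet
lemma meas_D1 : MeasurableSet (D1 v) :=
  ((isClopen_co 0 (-1)).inter ((isClopen_co 1 0).inter (isClopen_co 1 (-1)).compl)).isOpen.measurableSet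
lemma meas_D2 : MeasurableSet (D2 v) :=
  (((isClopen_co 0 0).inter (isClopen_co 0 (-1)).compl).inter (isClopen_co 1 0)).isOpen.measurableSet

lemma Sph_eq_A : Sph v = A1 v ∪ A2 v := by
  ext s
  have h0 : s ∈ co v 0 (-1) → s ∈ co v 0 0 := fun h => co_mono 0 (by norm_num) h
  have h1 : s ∈ co v 1 (-1) → s ∈ co v 1 0 := fun h => co_mono 1 (by norm_num) h
  simp only [Sph, Lat, A1, A2, Set.mem_inter_iff, Set.mem_union, Set.mem_compl_iff]
  tauto

lemma Sph_eq_D : Sph v = D1 v ∪ D2 v := by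
  ext s
  have h0 : s ∈ co v 0 (-1) → s ∈ co v 0 0 := fun h => co_mono 0 (by norm_num) h
  have h1 : s ∈ co v 1 (-1) → s ∈ co v 1 0 := fun h => co_mono 1 (by norm_num) h
  simp only [Sph, Lat, D1, D2, Set.mem_inter_iff, Set.mem_union, Set.mem_compl_iff]
  tauto

lemma disj_A : Disjoint (A1 v) (A2 v) :=
  Set.disjoint_left.2 fun _ h h' => h.2.2 h'.2

lemma disj_D : Disjoint (D1 v) (D2 v) :=
  Set.disjoint_left.2 fun _ h h' => h'.1.2 h.1

lemma zero_notMem_Sph : (0 : V v) ∉ Sph v := by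
  intro h
  exact h.2 ⟨by simp [mem_co], by simp [mem_co]⟩

lemma ne_zero_of_mem {s : V v} (h : s ∈ Sph v) : s ≠ 0 := by
  rintro rfl; exact zero_notMem_Sph h

variable (v) in
/-- the functional -/
def La (φ : Gv v → ℂ) : ℂ := ∫ s in Sph v, ps φ s ∂(μ v)

lemma La_C {φ : Gv v → ℂ} (hφ : Eqv φ) {k : Gv v} (hk : k ∈ Cv v) :
    La v (Rt (Gv v) k φ) = La v φ := by
  refine integral_ps hφ (Cv_le_Sca hk) ?_ isClopen_Sph.isOpen.measurableSet zero_notMem_Sph
  ext s
  have h1 : ∀ s : V v, s ∈ Sph v ↔ (∀ i, val v (s i) ≤ 1) ∧ ¬ ∀ i, val v (s i) ≤ WithZero.exp (-1) := by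
    intro s
    rw [Sph, Set.mem_inter_iff, mem_Lat, Set.mem_compl_iff, Set.mem_inter_iff, mem_co, mem_co,
      Fin.forall_fin_two (p := fun i => val v (s i) ≤ WithZero.exp (-1))]
  rw [Set.mem_preimage, h1, h1, vecMul_le_iff hk, vecMul_le_iff hk]

lemma Rt_sca {φ : Gv v → ℂ} (hφ : Eqv φ) (z : (Kv v)ˣ) : Rt (Gv v) (dg z z) φ = φ := by
  funext g
  change φ (g * dg z z) = φ g
  have h1 : g * dg z z = bor z z 0 * g := by
    ext i j
    fin_cases i <;> fin_cases j <;>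
      simp [dg, bor, Matrix.mul_apply, Fin.sum_univ_two, mul_comm]
  rw [h1, hφ, div_self (nrm_pos z).ne']
  simp

lemma Rt_mul (g h : Gv v) (φ : Gv v → ℂ) :
    Rt (Gv v) (g * h) φ = Rt (Gv v) g (Rt (Gv v) h φ) := by
  rw [map_mul]; rfl

lemma La_dg {φ : Gv v → ℂ} (hφ : Eqv φ) (hi : IntegrableOn (ps φ) (Sph v) (μ v)) {ϖ : (Kv v)ˣ}
    (hϖ : val v (ϖ : Kv v) = WithZero.exp (-1))
    (hi' : IntegrableOn (ps (Rt (Gv v) (dg ϖ 1) φ)) (Sph v) (μ v)) :
    La v (Rt (Gv v) (dg ϖ 1) φ) = La v φ := by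
  have hT : Rt (Gv v) (dg ϖ 1) φ = Rt (Gv v) (dg 1 ϖ⁻¹) φ := by
    have e : (dg ϖ 1 : Gv v) = dg 1 ϖ⁻¹ * dg ϖ ϖ := by
      rw [dg_mul, one_mul, inv_mul_cancel]
    conv_lhs => rw [e, Rt_mul, Rt_sca hφ]
  have e1 : ∫ s in A1 v, ps (Rt (Gv v) (dg ϖ 1) φ) s ∂(μ v) = ∫ s in D1 v, ps φ s ∂(μ v) := by
    refine integral_ps hφ (dg_mem_Sca hϖ) ?_ meas_D1
      (fun h => zero_notMem_Sph (by rw [Sph_eq_A]; exact Or.inl h))
    ext s
    rw [Set.mem_preimage, eV_dg]
    simp only [D1, A1, Set.mem_inter_iff, mem_co, Set.mem_compl_iff, Matrix.cons_val_zero,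
      Matrix.cons_val_one, Units.val_one, mul_one]
    rw [show (-1 : ℤ) = 0 - 1 by norm_num, co_iff hϖ]
  have e2 : ∫ s in A2 v, ps (Rt (Gv v) (dg ϖ 1) φ) s ∂(μ v) = ∫ s in D2 v, ps φ s ∂(μ v) := by
    rw [hT]
    refine integral_ps hφ (dg'_mem_Sca hϖ) ?_ meas_D2
      (fun h => zero_notMem_Sph (by rw [Sph_eq_A]; exact Or.inr h))
    ext s
    rw [Set.mem_preimage, eV_dg]
    simp only [D2, A2, Set.mem_inter_iff, mem_co, Set.mem_compl_iff, Matrix.cons_val_zero,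
      Matrix.cons_val_one, Units.val_one, mul_one]
    have h2 := co_iff hϖ (s 1 * (ϖ⁻¹ : (Kv v)ˣ)) 0
    rw [mul_assoc, ← Units.val_mul, inv_mul_cancel, Units.val_one, mul_one] at h2
    rw [← h2]
    norm_num
  rw [La, La]
  conv_rhs => rw [Sph_eq_D]
  rw [Sph_eq_D] at hi
  have hi2 := hi'
  rw [Sph_eq_A] at hi2 ⊢
  rw [setIntegral_union disj_A meas_A2 (hi2.mono_set Set.subset_union_left)
      (hi2.mono_set Set.subset_union_right),
    setIntegral_union disj_D meas_D2 (hi.mono_set Set.subset_union_left)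
      (hi.mono_set Set.subset_union_right), e1, e2]

/-! ## Integrability -/

lemma val_eq_one_of_mem {s : V v} (hs : s ∈ Sph v) :
    (val v (s 0) ≤ 1 ∧ val v (s 1) ≤ 1) ∧ (val v (s 0) = 1 ∨ val v (s 1) = 1) := by
  obtain ⟨h1, h2⟩ := hs
  have h3 := mem_Lat.1 h1
  refine ⟨⟨h3 0, h3 1⟩, ?_⟩
  by_contra hcon
  push Not at hcon
  exact h2 ⟨mem_co.2 ((lt_one_iff_le_exp _).1 (lt_of_le_of_ne (h3 0) hcon.1)),
    mem_co.2 ((lt_one_iff_le_exp _).1 (lt_of_le_of_ne (h3 1) hcon.2))⟩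

lemma loc0 {φ : Gv v → ℂ} (hφ : Eqv φ) (hsm : Smo φ) {s : V v} (h0 : val v (s 0) = 1) :
    ∀ᶠ s' in 𝓝 s, ps φ s' = ps φ s := by
  obtain ⟨U, hU, hu⟩ := hsm
  obtain ⟨m, hm⟩ := GlTop.exists_Km_le (mem_nhds_zero_Kv v) U hU
  have hn : {s' : V v | ∀ i, val v (s' i - s i) ≤ WithZero.exp (-((m : ℤ) + 1))} ∈ 𝓝 s := by
    have e : {s' : V v | ∀ i, val v (s' i - s i) ≤ WithZero.exp (-((m : ℤ) + 1))} =
        ⋂ i, (fun s' : V v => s' - s) ⁻¹' co v i (-((m : ℤ) + 1)) := by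
      ext s'; simp [mem_co]
    rw [e]
    refine IsOpen.mem_nhds (isOpen_iInter_of_finite fun i =>
      (isClopen_co i _).isOpen.preimage (continuous_id.sub continuous_const)) ?_
    simp [mem_co]
  have hx : s 0 ≠ 0 := by
    intro h; rw [h, map_zero] at h0; exact zero_ne_one h0
  have hlt : WithZero.exp (-((m : ℤ) + 1)) < (1 : ℤᵐ⁰) := by
    rw [← WithZero.exp_zero, WithZero.exp_lt_exp]; omega
  have hle : WithZero.exp (-((m : ℤ) + 1)) ≤ WithZero.exp (-(m : ℤ)) := by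
    rw [WithZero.exp_le_exp]; omega
  filter_upwards [hn] with s' hs'
  have h0' : val v (s' 0) = 1 := by
    have e : s' 0 = (s' 0 - s 0) + s 0 := by ring
    rw [e, Valuation.map_add_eq_of_lt_right _ (by rw [h0]; exact lt_of_le_of_lt (hs' 0) hlt), h0]
  have hx' : s' 0 ≠ 0 := by
    intro h; rw [h, map_zero] at h0'; exact zero_ne_one h0'
  have hu1 : val v (s' 0 / s 0) = 1 := by rw [map_div₀, h0, h0', div_one]
  have hb : val v ((s' 1 - s 1) / s 0) ≤ WithZero.exp (-(m : ℤ)) := by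
    rw [map_div₀, h0, div_one]; exact (hs' 1).trans hle
  have hb1 : val v ((s' 1 - s 1) / s 0) ≤ 1 := by
    rw [map_div₀, h0, div_one]; exact (hs' 1).trans hlt.le
  have hk : (bor (Units.mk0 (s' 0 / s 0) (div_ne_zero hx' hx)) 1 ((s' 1 - s 1) / s 0) : Gv v) ∈
      Km (val v) m := by
    refine ⟨⟨fun i j => ?_, fun i j => ?_⟩, fun i j => ?_⟩
    · fin_cases i <;> fin_cases j
      · exact hu1.le
      · exact hb1
      · exact (map_zero (val v)).trans_le zero_le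
      · exact (map_one (val v)).le
    · fin_cases i <;> fin_cases j
      · change val v ((Units.mk0 (s' 0 / s 0) (div_ne_zero hx' hx))⁻¹ : (Kv v)ˣ) ≤ 1
        rw [Units.val_inv_eq_inv_val, map_inv₀, Units.val_mk0, hu1, inv_one]
      · change val v (-((Units.mk0 (s' 0 / s 0) (div_ne_zero hx' hx))⁻¹ : (Kv v)ˣ) * ((s' 1 - s 1) / s 0) *
          ((1⁻¹ : (Kv v)ˣ) : Kv v)) ≤ 1
        rw [Units.val_inv_eq_inv_val, map_mul, map_mul, Valuation.map_neg, map_inv₀, Units.val_mk0,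
          hu1, inv_one, one_mul, inv_one, Units.val_one, map_one, mul_one]
        exact hb1
      · exact (map_zero (val v)).trans_le zero_le
      · change val v ((1⁻¹ : (Kv v)ˣ) : Kv v) ≤ 1
        rw [inv_one, Units.val_one, map_one]
    · fin_cases i <;> fin_cases j
      · change val v (s' 0 / s 0 - 1) ≤ _
        have e : s' 0 / s 0 - 1 = (s' 0 - s 0) / s 0 := by field_simp
        rw [e, map_div₀, h0, div_one]
        exact (hs' 0).trans hle
      · change val v ((s' 1 - s 1) / s 0 - 0) ≤ _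
        rw [sub_zero]; exact hb
      · change val v ((0 : Kv v) - 0) ≤ _
        rw [sub_zero, map_zero]; exact zero_le
      · change val v (((1 : (Kv v)ˣ) : Kv v) - 1) ≤ _
        rw [Units.val_one, sub_self, map_zero]; exact zero_le
  have e : eV (bor (Units.mk0 (s' 0 / s 0) (div_ne_zero hx' hx)) 1 ((s' 1 - s 1) / s 0) : Gv v) s =
      s' := by
    rw [eV_apply]
    ext i
    rw [Matrix.vecMul, dotProduct, Fin.sum_univ_two]
    fin_cases i
    · simp only [bor, Units.val_mk0, Fin.zero_eta, Matrix.of_apply, Matrix.cons_val', Matrix.cons_val_zero,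
        Matrix.cons_val_fin_one, Matrix.cons_val_one, mul_zero, add_zero]
      field_simp
    · simp only [bor, Fin.mk_one, Matrix.of_apply, Matrix.cons_val', Matrix.cons_val_zero,
        Matrix.cons_val_fin_one, Matrix.cons_val_one, Units.val_one, mul_one]
      field_simp
      ring
  have hR : Rt (Gv v) (bor (Units.mk0 (s' 0 / s 0) (div_ne_zero hx' hx)) 1
      ((s' 1 - s 1) / s 0) : Gv v) φ = φ := funext fun g => hu _ (hm hk) g
  have h3 := ps_Rt hφ (bor (Units.mk0 (s' 0 / s 0) (div_ne_zero hx' hx)) 1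
      ((s' 1 - s 1) / s 0) : Gv v) (s := s) (fun h => hx (congrFun h 0))
  rw [hR, e, dt_of_mem (show _ ∈ Cv v from hk.1)] at h3
  simpa using h3.symm

lemma eV_wm_wm (s : V v) : eV (wm : Gv v) (eV (wm : Gv v) s) = s := by
  have h := eV_inv (wm : Gv v) s
  have e : (wm : Gv v)⁻¹ = wm := rfl
  rwa [e] at h

lemma eV_wm_zero (s : V v) : eV (wm : Gv v) s 0 = s 1 := by
  rw [eV_apply, Matrix.vecMul, dotProduct, Fin.sum_univ_two]; simp [wm]

lemma loc1 {φ : Gv v → ℂ} (hφ : Eqv φ) (hsm : Smo φ) {s : V v} (h1 : val v (s 1) = 1) :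
    ∀ᶠ s' in 𝓝 s, ps φ s' = ps φ s := by
  have key : ∀ t : V v, t ≠ 0 → ps φ t = ps (Rt (Gv v) wm φ) (eV (wm : Gv v) t) := by
    intro t ht
    rw [ps_Rt hφ wm (eV_ne ht), eV_wm_wm, dt_of_mem wm_mem]
    simp
  have hs : s ≠ 0 := by
    rintro rfl
    rw [Pi.zero_apply, map_zero] at h1
    exact zero_ne_one h1
  have h2 := loc0 (Eqv_Rt hφ wm) (Smo_Rt hsm wm) (s := eV (wm : Gv v) s)
    (by rw [eV_wm_zero]; exact h1)
  have h3 := (eV (wm : Gv v)).toHomeomorph.continuous.continuousAt.eventually h2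
  filter_upwards [h3, eventually_ne_nhds hs] with s' hs' hne
  rw [key s' hne, key s hs]
  exact hs'

lemma integrableOn_ps {φ : Gv v → ℂ} (hφ : Eqv φ) (hsm : Smo φ) :
    IntegrableOn (ps φ) (Sph v) (μ v) := by
  refine ContinuousOn.integrableOn_compact isCompact_Sph fun s hs => ?_
  have h : ∀ᶠ s' in 𝓝 s, ps φ s' = ps φ s := by
    obtain ⟨-, h | h⟩ := val_eq_one_of_mem hs
    · exact loc0 hφ hsm h
    · exact loc1 hφ hsm h
  exact (continuousAt_const.congr (Filter.EventuallyEq.symm h)).continuousWithinAt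

/-! ## Invariance -/

/-- the group of elements under which the functional is invariant -/
def Hinv (v : Place) : Subgroup (Gv v) where
  carrier := {h | ∀ φ : Gv v → ℂ, Eqv φ → Smo φ → La v (Rt (Gv v) h φ) = La v φ}
  mul_mem' := by
    intro a b ha hb φ h1 h2
    rw [Rt_mul, ha _ (Eqv_Rt h1 b) (Smo_Rt h2 b), hb φ h1 h2]
  one_mem' := by
    intro φ h1 h2
    rw [map_one]; rfl
  inv_mem' := by
    intro a ha φ h1 h2
    have h3 := ha _ (Eqv_Rt h1 a⁻¹) (Smo_Rt h2 a⁻¹)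
    rw [← Rt_mul, mul_inv_cancel, map_one] at h3
    exact h3.symm

lemma Cv_le_H : Cv v ≤ Hinv v := fun _ hk _ h1 _ => La_C h1 hk

lemma dgu_mem_H {ϖ : (Kv v)ˣ} (hϖ : val v (ϖ : Kv v) = WithZero.exp (-1)) :
    (dg ϖ 1 : Gv v) ∈ Hinv v := fun _ h1 h2 =>
  La_dg h1 (integrableOn_ps h1 h2) hϖ (integrableOn_ps (Eqv_Rt h1 _) (Smo_Rt h2 _))

lemma dgz_mem_H (z : (Kv v)ˣ) : (dg z z : Gv v) ∈ Hinv v := fun φ h1 _ => by
  rw [Rt_sca h1]

variable (v) in
/-- `a ↦ diag(a, 1)` -/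
def dgHom : (Kv v)ˣ →* Gv v where
  toFun a := dg a 1
  map_one' := dg_one
  map_mul' a b := by rw [dg_mul, one_mul]

lemma dg_unit_mem {u : (Kv v)ˣ} (hu : val v (u : Kv v) = 1) : (dg u 1 : Gv v) ∈ Cv v := by
  constructor
  · intro i j
    fin_cases i <;> fin_cases j
    · exact hu.le
    · exact (map_zero (val v)).trans_le zero_le
    · exact (map_zero (val v)).trans_le zero_le
    · exact (map_one (val v)).le
  · intro i j
    rw [dg_inv]
    fin_cases i <;> fin_cases j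
    · change val v ((u⁻¹ : (Kv v)ˣ) : Kv v) ≤ 1
      rw [Units.val_inv_eq_inv_val, map_inv₀, hu, inv_one]
    · exact (map_zero (val v)).trans_le zero_le
    · exact (map_zero (val v)).trans_le zero_le
    · change val v ((1⁻¹ : (Kv v)ˣ) : Kv v) ≤ 1
      rw [inv_one, Units.val_one, map_one]

lemma upr_mem {x : Kv v} (hx : val v x ≤ 1) : (upr x : Gv v) ∈ Cv v := by
  constructor <;> intro i j <;> fin_cases i <;> fin_cases j
  exacts [Subring.one_mem (Ov v), hx, Subring.zero_mem (Ov v), Subring.one_mem (Ov v),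
    Subring.one_mem (Ov v), Subring.neg_mem (Ov v) hx, Subring.zero_mem (Ov v),
    Subring.one_mem (Ov v)]

lemma dgHom_mem_H (a : (Kv v)ˣ) : (dg a 1 : Gv v) ∈ Hinv v := by
  obtain ⟨ϖ, hϖ⟩ := exists_unif v
  set n := WithZero.log (val v (a : Kv v)) with hn
  have ha : val v (a : Kv v) = WithZero.exp n := (WithZero.exp_log (val_unit_ne a)).symm
  have hu : val v ((a * ϖ ^ n : (Kv v)ˣ) : Kv v) = 1 := by
    rw [Units.val_mul, map_mul, ha, Units.val_zpow_eq_zpow_val, map_zpow₀, hϖ,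
      ← WithZero.exp_zsmul, ← WithZero.exp_add]
    simp
  have e : (dg a 1 : Gv v) = dgHom v (a * ϖ ^ n) * (dgHom v ϖ) ^ (-n) := by
    rw [← map_zpow, ← map_mul, mul_assoc, ← zpow_add, add_neg_cancel, zpow_zero, mul_one]; rfl
  rw [e]
  exact mul_mem (Cv_le_H (dg_unit_mem hu)) (zpow_mem (dgu_mem_H hϖ) _)

lemma dg_mem_H (a d : (Kv v)ˣ) : (dg a d : Gv v) ∈ Hinv v := by
  have e : (dg a d : Gv v) = dg (a * d⁻¹) 1 * dg d d := by
    rw [dg_mul, inv_mul_cancel_right, one_mul]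
  rw [e]
  exact mul_mem (dgHom_mem_H _) (dgz_mem_H _)

lemma upr_mem_H (x : Kv v) : (upr x : Gv v) ∈ Hinv v := by
  obtain ⟨ϖ, hϖ⟩ := exists_unif v
  obtain ⟨N, hN⟩ := exists_exp_bound (val v) x
  have hx : val v ((ϖ ^ N : (Kv v)ˣ) * x) ≤ 1 := by
    rw [map_mul, Units.val_pow_eq_pow_val, map_pow, hϖ, ← WithZero.exp_nsmul]
    calc _ ≤ WithZero.exp (N • (-1 : ℤ)) * WithZero.exp (N : ℤ) := mul_le_mul' le_rfl hN
      _ = 1 := by rw [← WithZero.exp_add]; simp
  have e : (upr x : Gv v) = (dg (ϖ ^ N) 1)⁻¹ * upr ((ϖ ^ N : (Kv v)ˣ) * x) * dg (ϖ ^ N) 1 := by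
    rw [mul_assoc, eq_inv_mul_iff_mul_eq]
    ext i j
    fin_cases i <;> fin_cases j <;> simp [dg, bor, upr, Matrix.mul_apply, Fin.sum_univ_two]
  rw [e]
  exact mul_mem (mul_mem (inv_mem (dg_mem_H _ _)) (Cv_le_H (upr_mem hx))) (dg_mem_H _ _)

lemma det_ne (g : Gv v) : g.val.det ≠ 0 := by
  intro h
  have h2 : g.val.det * g⁻¹.val.det = 1 := by rw [← Matrix.det_mul, g.mul_inv, Matrix.det_one]
  rw [h, zero_mul] at h2
  exact zero_ne_one h2

lemma mem_H_of_ne (g : Gv v) (hc : g.val 1 0 ≠ 0) : g ∈ Hinv v := by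
  have hd := det_ne g
  have e : g = upr (g.val 0 0 / g.val 1 0) * wm *
      dg (Units.mk0 _ hc) (Units.mk0 (-(g.val.det / g.val 1 0)) (neg_ne_zero.2 (div_ne_zero hd hc))) *
      upr (g.val 1 1 / g.val 1 0) := by
    have hdet := Matrix.det_fin_two g.val
    ext i j
    simp only [Units.val_mul, Matrix.mul_apply, Fin.sum_univ_two]
    fin_cases i <;> fin_cases j
    · simp [upr, wm, dg, bor, hc]
    · simp [upr, wm, dg, bor, hdet]
      field_simp
      ring
    · simp [upr, wm, dg, bor]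
    · simp [upr, wm, dg, bor]
      field_simp
  rw [e]
  exact mul_mem (mul_mem (mul_mem (upr_mem_H _) (Cv_le_H wm_mem)) (dg_mem_H _ _)) (upr_mem_H _)

lemma mem_H (g : Gv v) : g ∈ Hinv v := by
  by_cases hc : g.val 1 0 = 0
  · have h1 : (wm * g).val 1 0 = g.val 0 0 := by
      rw [Units.val_mul, Matrix.mul_apply, Fin.sum_univ_two]; simp [wm]
    have h2 : g.val 0 0 ≠ 0 := by
      intro h0
      apply det_ne g
      rw [Matrix.det_fin_two, hc, h0]; ring
    have h3 := mem_H_of_ne (wm * g) (by rw [h1]; exact h2)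
    have e : g = wm⁻¹ * (wm * g) := by rw [inv_mul_cancel_left]
    rw [e]
    exact mul_mem (inv_mem (Cv_le_H wm_mem)) h3
  · exact mem_H_of_ne g hc

/-! ## Non-vanishing -/

/-- the norm on `K_v²` -/
def Nm (s : V v) : ℝ := (qv v : ℝ) ^ (WithZero.log (max (val v (s 0)) (val v (s 1))))

variable (v) in
/-- the spherical function -/
def phi0 (g : Gv v) : ℂ := ((dt g * ((Nm (g.val 1))⁻¹) ^ 2 : ℝ) : ℂ)

lemma Nm_pos (s : V v) : 0 < Nm s := zpow_pos (qv_pos v) _

lemma max_ne {s : V v} (hs : s ≠ 0) : max (val v (s 0)) (val v (s 1)) ≠ 0 := by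
  intro h
  apply hs
  have h1 : val v (s 0) = 0 := le_antisymm ((le_max_left _ _).trans h.le) zero_le
  have h2 : val v (s 1) = 0 := le_antisymm ((le_max_right _ _).trans h.le) zero_le
  ext i
  fin_cases i
  · exact (Valuation.zero_iff _).1 h1
  · exact (Valuation.zero_iff _).1 h2

lemma Eqv_phi0 : Eqv (phi0 v) := by
  intro a d b g
  have h1 : ∀ j, (bor a d b * g).val 1 j = (d : Kv v) * g.val 1 j := by
    intro j
    rw [Units.val_mul, Matrix.mul_apply, Fin.sum_univ_two]; simp [bor]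
  have h2 : Nm ((bor a d b * g).val 1) = nrm v d * Nm (g.val 1) := by
    rw [Nm, Nm, nrm, h1, h1, map_mul, map_mul, ← zpow_add₀ (qv_ne v),
      ← WithZero.log_mul (val_unit_ne d) (max_ne (row_ne g))]
    congr 2
    exact ((mul_right_mono (a := val v (d : Kv v))).map_max).symm
  have h3 : dt (bor a d b : Gv v) = nrm v a * nrm v d := by
    rw [dt, ← nrm_mul]
    congr 1
    ext
    change (Matrix.det (bor a d b : Gv v).val) = _
    rw [Matrix.det_fin_two]
    simp [bor]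
  rw [phi0, phi0, h2, dt_mul, h3, ← Complex.ofReal_mul]
  congr 1
  have h4 := (nrm_pos d).ne'
  have h5 := (Nm_pos (g.val 1)).ne'
  field_simp

lemma Nm_eV {k : Gv v} (hk : k ∈ Cv v) (s : V v) : Nm (eV k s) = Nm s := by
  rw [Nm, Nm]
  congr 2
  refine eq_of_forall_ge_iff fun r => ?_
  rw [max_le_iff, max_le_iff]
  have := vecMul_le_iff (r := r) (s := s) hk
  rwa [Fin.forall_fin_two, Fin.forall_fin_two] at this

lemma Smo_phi0 : Smo (phi0 v) := by
  refine ⟨Cv v, GlTop.isOpen_Cv (mem_nhds_zero_Kv v), fun k hk g => ?_⟩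
  have h2 : (g * k).val 1 = eV k (g.val 1) := by
    rw [Units.val_mul, Matrix.mul_apply_eq_vecMul]; rfl
  rw [phi0, phi0, h2, Nm_eV hk, dt_mul, dt_of_mem hk, mul_one]

lemma ps_phi0 {s : V v} (hs : s ∈ Sph v) : ps (phi0 v) s = 1 := by
  have h0 := ne_zero_of_mem hs
  obtain ⟨⟨h1, h2⟩, h3⟩ := val_eq_one_of_mem hs
  have h4 : max (val v (s 0)) (val v (s 1)) = 1 := by
    refine le_antisymm (max_le h1 h2) ?_
    rcases h3 with h3 | h3
    · exact h3.symm.le.trans (le_max_left _ _)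
    · exact h3.symm.le.trans (le_max_right _ _)
  rw [ps, phi0, gs_row h0, gs_dt h0, Nm, h4, WithZero.log_one, zpow_zero]
  norm_num

lemma La_phi0 : La v (phi0 v) ≠ 0 := by
  rw [La, setIntegral_congr_fun isClopen_Sph.isOpen.measurableSet (g := fun _ => (1 : ℂ))
    (fun s hs => ps_phi0 hs), setIntegral_const]
  have h1 : μ v (Sph v) ≠ 0 := by
    refine (isClopen_Sph.isOpen.measure_pos (μ v) ⟨![1, 0], ?_, ?_⟩).ne'
    · rw [mem_Lat]; intro i; fin_cases i <;> simp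
    · rintro ⟨h, -⟩
      rw [mem_co] at h
      simp only [Matrix.cons_val_zero, map_one] at h
      rw [← WithZero.exp_zero, WithZero.exp_le_exp] at h
      norm_num at h
  have h2 : μ v (Sph v) ≠ ⊤ := isCompact_Sph.measure_lt_top.ne
  have h3 : (μ v).real (Sph v) ≠ 0 := ENNReal.toReal_ne_zero.2 ⟨h1, h2⟩
  simpa using h3

end Haar

open Haar in
/-- LL/20 -/
theorem TaskHaar_proof : TaskHaar := by
  intro v
  let Y : Submodule ℂ (Gv v → ℂ) :=
    { carrier := {φ | IntegrableOn (ps φ) (Sph v) (μ v)}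
      add_mem' := fun {a b} ha hb => Integrable.add ha hb
      zero_mem' := integrableOn_zero
      smul_mem' := fun c a ha => Integrable.smul c ha }
  let L0 : Y →ₗ[ℂ] ℂ :=
    { toFun := fun φ => La v φ.1
      map_add' := fun a b => integral_add a.2 b.2
      map_smul' := fun c a => integral_smul c _ }
  obtain ⟨Λ, hΛ⟩ := LinearMap.exists_extend L0
  have hL : ∀ φ : Gv v → ℂ, IntegrableOn (ps φ) (Sph v) (μ v) → Λ φ = La v φ := fun φ h =>
    LinearMap.congr_fun hΛ (⟨φ, h⟩ : Y)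
  refine ⟨Λ, fun φ h1 h2 h => ?_, phi0 v, Smo_phi0, Eqv_phi0, ?_⟩
  · rw [hL φ (integrableOn_ps h2 h1), hL _ (integrableOn_ps (Eqv_Rt h2 h) (Smo_Rt h1 h))]
    exact mem_H h φ h2 h1
  · rw [hL _ (integrableOn_ps Eqv_phi0 Smo_phi0)]
    exact La_phi0

end N589LL
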